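import Pool.Agent.helper53.PV.SpecF

set_option autoImplicit false

open scoped Topology
open MeasureTheory Filter

namespace Pool.Agent.PV

open Pool.Agent.CZ

theorem FDN_cont (X₀ Y : Type) [TopologicalSpace X₀] [TopologicalSpace Y] [T1Space X₀]
    (α₀ : X₀ ≃ₜ X₀) (x₀ : X₀) (f : X₀ → Y) (hf : ContinuousOn f {x₀}ᶜ)
    (ho : ∀ n : ℤ, n ≠ 0 → (α₀ ^ n) x₀ ≠ x₀) (k : ℤ) (y : Y) :
    ContinuousAt (fun q : X₀ × Y => (((α₀ ^ (-k)) q.1, fun i : ℤ => if i = k then q.2 else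
      f ((α₀ ^ (i - k)) q.1)) : X₀ × (ℤ → Y))) (x₀, y) := by
  refine ContinuousAt.prodMk ?_ ?_
  · exact ((α₀ ^ (-k)).continuous.comp continuous_fst).continuousAt
  · refine continuousAt_pi.2 fun i => ?_
    by_cases h : i = k
    · simp only [if_pos h]
      exact continuous_snd.continuousAt
    · simp only [if_neg h]
      have h1 : (α₀ ^ (i - k)) x₀ ≠ x₀ := ho _ (sub_ne_zero.2 h)
      have h2 : ContinuousAt f ((α₀ ^ (i - k)) x₀) :=
        hf.continuousAt (isOpen_compl_singleton.mem_nhds h1)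
      have h3 : ContinuousAt (fun q : X₀ × Y => (α₀ ^ (i - k)) q.1) (x₀, y) :=
        ((α₀ ^ (i - k)).continuous.comp continuous_fst).continuousAt
      exact ContinuousAt.comp (g := f) (f := fun q : X₀ × Y => (α₀ ^ (i - k)) q.1) h2 h3

theorem FDN (hFID : FID_stmt) (hFFB : FFB_stmt) : FDN_stmt := by
  intro X₀ Y _ _ _ α₀ x₀ f hE ho p W hW
  obtain ⟨hb1, hb2⟩ := hFFB X₀ Y α₀ x₀ f
  by_cases hc : ∀ k : ℤ, (α₀ ^ k) (ePr α₀ x₀ f p) ≠ x₀
  · refine ⟨ePr α₀ x₀ f p, ?_, ?_⟩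
    · intro n hn
      apply hc (-n)
      rw [← hn, zpow_zpow_apply, neg_add_cancel, zpow_zero]
      rfl
    · rw [← hb1 p hc]
      exact mem_of_mem_nhds hW
  · push Not at hc
    obtain ⟨k, hk⟩ := hc
    have hp := hb2 ho p k hk
    set y : Y := eEv α₀ x₀ f k p with hy
    have hpv : p.1 = ((α₀ ^ (-k)) x₀, fun i : ℤ => if i = k then y else f ((α₀ ^ (i - k)) x₀)) :=
      congrArg Subtype.val hp
    rw [nhds_subtype_eq_comap, mem_comap] at hW
    obtain ⟨W', hW', hWW⟩ := hW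
    have hcont := FDN_cont X₀ Y α₀ x₀ f hE.cont ho k y
    have hpre := hcont.preimage_mem_nhds (t := W') (by
      show W' ∈ 𝓝 (((α₀ ^ (-k)) x₀, fun i : ℤ => if i = k then y else
        f ((α₀ ^ (i - k)) x₀)) : X₀ × (ℤ → Y))
      rw [← hpv]
      exact hW')
    rw [nhds_prod_eq, mem_prod_iff] at hpre
    obtain ⟨U, hU, V, hV, hUV⟩ := hpre
    obtain ⟨z, hzU, hzo, hzV⟩ := hE.dense y U hU V hV
    refine ⟨(α₀ ^ (-k)) z, ?_, ?_⟩
    · intro n hn
      apply hzo (k + n)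
      rw [← zpow_zpow_apply, hn, zpow_zpow_apply, add_neg_cancel, zpow_zero]
      rfl
    · apply hWW
      have hmem : ((z, f z) : X₀ × Y) ∈ U ×ˢ V := ⟨hzU, hzV⟩
      have h4 := hUV hmem
      have h5 : ((eSec α₀ x₀ f ((α₀ ^ (-k)) z)).1 : X₀ × (ℤ → Y)) =
          ((α₀ ^ (-k)) z, fun i : ℤ => if i = k then f z else f ((α₀ ^ (i - k)) z)) := by
        show (((α₀ ^ (-k)) z, fun i : ℤ => f ((α₀ ^ i) ((α₀ ^ (-k)) z))) : X₀ × (ℤ → Y)) = _
        apply Prod.ext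
        · rfl
        · funext i
          show f ((α₀ ^ i) ((α₀ ^ (-k)) z)) = if i = k then f z else f ((α₀ ^ (i - k)) z)
          rw [zpow_zpow_apply]
          by_cases h : i = k
          · rw [if_pos h, h, add_neg_cancel, zpow_zero]
            rfl
          · rw [if_neg h, sub_eq_add_neg]
      show ((eSec α₀ x₀ f ((α₀ ^ (-k)) z)).1 : X₀ × (ℤ → Y)) ∈ W'
      rw [h5]
      exact h4

end Pool.Agent.PV
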