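import Pool.Agent.helper72.PV.SpecH

set_option autoImplicit false

open Finset

namespace Pool.Agent.PVH

open Pool.Agent.PV Pool.Agent.CZ

theorem OTP_closed (n : ℕ → ℕ) (h : ℕ → ℕ → ℕ) (pr : ℕ → ℕ × ℕ → ℕ × ℕ) :
    IsClosed (Om n h pr) := by
  have h1 : Om n h pr = ⋂ k : ℕ, (fun x : ℕ → ℕ × ℕ => (x k, x (k + 1))) ⁻¹'
      {p : (ℕ × ℕ) × (ℕ × ℕ) | Sym n h k p.1 ∧ p.1 = pr k p.2} := by
    ext x
    rw [Set.mem_iInter]
    rfl
  rw [h1]
  refine isClosed_iInter fun k => ?_
  refine IsClosed.preimage ?_ (isClosed_discrete _)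
  exact (continuous_apply k).prodMk (continuous_apply (k + 1))

theorem OTP_compact (n : ℕ → ℕ) (h : ℕ → ℕ → ℕ) (pr : ℕ → ℕ × ℕ → ℕ × ℕ) :
    IsCompact (Om n h pr) := by
  have hfin : ∀ k, ({p : ℕ × ℕ | Sym n h k p}).Finite := by
    intro k
    refine Set.Finite.subset (Finset.finite_toSet (range (n k) ×ˢ
      range (∑ v ∈ range (n k), h k v))) ?_
    rintro ⟨v, i⟩ ⟨h1, h2⟩
    simp only [Finset.coe_product, Finset.coe_range, Set.mem_prod, Set.mem_Iio]
    refine ⟨h1, lt_of_lt_of_le h2 ?_⟩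
    exact Finset.single_le_sum (f := fun v => h k v) (fun _ _ => Nat.zero_le _)
      (Finset.mem_range.2 h1)
  have hpi : IsCompact (Set.pi Set.univ (fun k => {p : ℕ × ℕ | Sym n h k p})) :=
    isCompact_univ_pi fun k => (hfin k).isCompact
  refine hpi.of_isClosed_subset (OTP_closed n h pr) ?_
  intro x hx k _
  exact (hx k).1

theorem OTP : OTP_stmt := by
  intro n h pr
  have hc : CompactSpace ↥(Om n h pr) := isCompact_iff_compactSpace.1 (OTP_compact n h pr)
  refine ⟨hc, ?_, ?_⟩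
  · have h2 : SecondCountableTopology ↥(Om n h pr) := inferInstance
    have h3 : T3Space ↥(Om n h pr) := inferInstance
    exact TopologicalSpace.metrizableSpace_of_t3_secondCountable _
  · have : TotallyDisconnectedSpace (ℕ × ℕ) := inferInstance
    have : TotallyDisconnectedSpace (ℕ → ℕ × ℕ) := inferInstance
    infer_instance

end Pool.Agent.PVH
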