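import Pool.Agent.helper28.PV.SpecS

set_option autoImplicit false

namespace Pool.Agent.PV

open Pool.Agent.CZ

theorem TRG : TRG_stmt := by
  intro r κ hκ h1 h2
  rw [linearIndependent_iff']
  intro s g hs
  by_contra hne
  push Not at hne
  obtain ⟨i0, hi0, hg0⟩ := hne
  have htne : (s.filter (fun i => g i ≠ 0)).Nonempty := ⟨i0, by simp [hi0, hg0]⟩
  set n := (s.filter (fun i => g i ≠ 0)).max' htne with hn
  have hnmem : n ∈ s.filter (fun i => g i ≠ 0) := Finset.max'_mem _ _
  rw [Finset.mem_filter] at hnmem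
  have h3 : (∑ i ∈ s, g i • r i) (κ n) = 0 := by rw [hs]; rfl
  rw [Finsupp.finsetSum_apply] at h3
  rw [Finset.sum_eq_single n] at h3
  · rw [Finsupp.smul_apply, smul_eq_mul] at h3
    rcases mul_eq_zero.1 h3 with h4 | h4
    · exact hnmem.2 h4
    · exact h1 n h4
  · intro i hi hin
    rw [Finsupp.smul_apply, smul_eq_mul]
    by_cases hgi : g i = 0
    · rw [hgi, zero_mul]
    · have h5 : i ≤ n := Finset.le_max' _ _ (by rw [Finset.mem_filter]; exact ⟨hi, hgi⟩)
      rw [h2 i (κ n) (hκ (lt_of_le_of_ne h5 hin)), mul_zero]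
  · intro h
    exact absurd hnmem.1 h

end Pool.Agent.PV
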